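import Pool.Agent.H.MP_8d021f_pr.C

set_option autoImplicit false

namespace Pool.Agent.Results.MP_8d021f_pr.Yes

open SimpleGraph Filter Topology Asymptotics

/-- orderings of the edges of the complete graph -/
def Ords (n : ℕ) : Set (List (Sym2 (Fin n))) := {L | L.Nodup ∧ ∀ e, e ∈ L ↔ ¬ e.IsDiag}

/-- asymptotically almost surely, for a uniformly random ordering -/
def AAS (A : ∀ n, List (Sym2 (Fin n)) → Prop) : Prop :=
  Tendsto (fun n => ({L ∈ Ords n | A n L}.ncard : ℝ) / (Ords n).ncard) atTop (𝓝 1)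

/-- hitting time -/
noncomputable def hit {n : ℕ} (P : Set (SimpleGraph (Fin n))) (L : List (Sym2 (Fin n))) : ℕ :=
  sInf {t | fromEdgeSet {e | e ∈ L.take t} ∈ P}

/-- the edges among the first `t` that are bought by the online strategy `σ` -/
def bought {n : ℕ} (σ : List (Sym2 (Fin n)) → Prop) (L : List (Sym2 (Fin n))) (t : ℕ) :
    Set (Sym2 (Fin n)) := {e | ∃ i < t, L[i]? = some e ∧ σ (L.take (i + 1))}

open Pool.Agent.H.MP_8d021f_pr Finset

open Classical in
theorem aas {A : ∀ n, List (Sym2 (Fin n)) → Prop} {ε : ℕ → ℝ} (hε : Tendsto ε atTop (𝓝 0))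
    (h : ∀ᶠ n in atTop, (((ords (univ.filter fun e : Sym2 (Fin n) => ¬ e.IsDiag)).filter
      fun L => ¬ A n L).card : ℝ) ≤
      (univ.filter fun e : Sym2 (Fin n) => ¬ e.IsDiag).card.factorial * ε n) : AAS A := by
  have h1 : ∀ n, Ords n = ords (univ.filter fun e : Sym2 (Fin n) => ¬ e.IsDiag) := fun n => by
    ext L; simp [Ords, mem_ords]
  refine tendsto_of_tendsto_of_tendsto_of_le_of_le' (by simpa using hε.const_sub 1)
    tendsto_const_nhds (h.mono fun n hn => ?_) (.of_forall fun n => div_le_one_of_le₀ ?_ (by positivity))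
  · have h2 := card_filter_add_card_filter_not
      (s := ords (univ.filter fun e : Sym2 (Fin n) => ¬ e.IsDiag)) (A n)
    rw [h1]
    simp only [mem_coe]
    rw [← coe_filter, Set.ncard_coe_finset, Set.ncard_coe_finset, card_ords,
      le_div_iff₀ (by positivity)]
    rw [card_ords] at h2
    have := congrArg (Nat.cast : ℕ → ℝ) h2
    push_cast at this
    linarith
  · exact_mod_cast Set.ncard_le_ncard (Set.sep_subset _ _) (h1 n ▸ finite_toSet _)

theorem bought_eq {n k m : ℕ} (L : List (Sym2 (Fin n))) (t : ℕ) :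
    bought (fun h => st k m h ≠ st k m h.dropLast) L t = bt k m L t := by
  refine Set.ext fun e => exists_congr fun i => and_congr_right fun _ => and_congr_right fun h => ?_
  simp only [List.take_add_one, h, Option.toList_some, List.dropLast_concat]

theorem sq_le (k : ℕ) : 16 * (k * k) ≤ 2 ^ (10 * k) := by
  rcases k with _ | k
  · simp
  have h := (Nat.lt_two_pow_self (n := k + 1)).le
  calc _ ≤ 2 ^ 4 * (2 ^ (k + 1) * 2 ^ (k + 1)) := by gcongr; norm_num
    _ ≤ _ := by rw [← pow_add, ← pow_add]; exact Nat.pow_le_pow_right two_pos (by omega)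

open Classical in
theorem result : ∃ (P : ∀ n, Set (SimpleGraph (Fin n))) (Δ : ℕ) (t b : ℕ → ℕ)
    (σ : ∀ n, List (Sym2 (Fin n)) → Prop),
    (∀ n G H, G ∈ P n → Nonempty (G ≃g H) → H ∈ P n) ∧
    (∀ n G H, G ∈ P n → G ≤ H → H ∈ P n) ∧
    (∀ n G, Minimal (· ∈ P n) G → ∀ x, (G.neighborSet x).ncard ≤ Δ) ∧
    Tendsto t atTop atTop ∧
    (∃ c C : ℝ, 0 < c ∧ AAS fun n L => c * t n ≤ hit (P n) L ∧ hit (P n) L ≤ C * t n) ∧
    (∀ n, ∀ L ∈ Ords n, (bought (σ n) L (t n)).ncard ≤ b n) ∧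
    (AAS fun n L => fromEdgeSet (bought (σ n) L (t n)) ∈ P n) ∧
    (fun n => (b n : ℝ)) =o[atTop] fun n => t n / Real.log n := by
  set k : ℕ → ℕ := Nat.log (2 ^ 20) with hk
  set m : ℕ → ℕ := fun n => k n * 2 ^ (10 * k n) with hm
  have a1 : Tendsto k atTop atTop := tendsto_atTop.2 fun b => (eventually_ge_atTop ((2 ^ 20) ^ b)).mono
    fun n hn => Nat.le_log_of_pow_le (by norm_num) hn
  have a2 : ∀ n, 1 ≤ k n → 2 ^ (10 * k n) * 2 ^ (10 * k n) ≤ n := fun n h => by
    rw [← pow_add, ← add_mul, pow_mul]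
    exact Nat.pow_log_le_self _ (by rintro rfl; simp [hk] at h)
  have a3 : ∀ n, 16 * (k n * m n) ≤ n := fun n => by
    rcases (k n).eq_zero_or_pos with h | h
    · simp [h]
    · refine le_trans ?_ (a2 n h)
      simp only [hm, ← mul_assoc]
      exact Nat.mul_le_mul_right _ (mul_assoc 16 _ _ ▸ sq_le _)
  have a4 : ∀ n, 0 < m n → 1 ≤ k n := fun n h => Nat.pos_of_mul_pos_right h
  have a5 : ∀ n, m n ≤ n := fun n => by
    rcases (m n).eq_zero_or_pos with h | h
    · omega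
    · nlinarith [a3 n, a4 n h]
  have a6 := fun n L => run (a5 n) (a4 n) L (n / 8)
  have a7 : ∀ n, 1 ≤ k n → 16 * k n ≤ n := fun n h => by
    have : 1 ≤ m n := Nat.mul_pos h (by positivity)
    nlinarith [a3 n]
  have a8 : ∀ n, 1 ≤ k n → (((ords (univ.filter fun e : Sym2 (Fin n) => ¬ e.IsDiag)).filter
      fun L => ¬ fromEdgeSet (bt (k n) (m n) L (n / 8)) ∈ P n (k n)).card : ℝ) ≤
      (univ.filter fun e : Sym2 (Fin n) => ¬ e.IsDiag).card.factorial * Real.exp (-k n) := fun n h => by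
    have := fail (m := m n) h (by linarith [a3 n]) (a7 n h)
    rw [show ((m n : ℕ) : ℝ) / 2 ^ (10 * k n) = k n by simp [hm]] at this
    refine le_trans (Nat.cast_le.2 (card_le_card fun L hL => ?_)) this
    exact mem_filter.2 ⟨(mem_filter.1 hL).1, fun j _ => by_contra fun hj =>
      (mem_filter.1 hL).2 ((a6 n L).1.succ h hj)⟩
  have a9 : Tendsto (fun n => Real.exp (-k n)) atTop (𝓝 0) :=
    Real.tendsto_exp_neg_atTop_nhds_zero.comp (tendsto_natCast_atTop_atTop.comp a1)
  have b1 : Tendsto (fun n => (2 : ℝ) ^ 43 * (1 / 2) ^ k n) atTop (𝓝 0) := by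
    simpa only [mul_zero, Function.comp_def] using ((tendsto_pow_atTop_nhds_zero_of_lt_one (r := 1 / 2) (by norm_num)
      (by norm_num)).comp a1).const_mul ((2 : ℝ) ^ 43)
  have b2 : ∀ n : ℕ, (n : ℝ) ≤ (2 ^ 20) ^ (k n + 1) := fun n => by
    exact_mod_cast (Nat.lt_pow_succ_log_self (b := 2 ^ 20) (by norm_num) n).le
  refine ⟨fun n => P n (k n), 3, fun n => n / 8, fun n => k n * m n,
    fun n h => st (k n) (m n) h ≠ st (k n) (m n) h.dropLast, fun n G H h ⟨φ⟩ => P_iso h φ,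
    fun n G H => P_mono, fun n G => P_deg, Nat.tendsto_div_const_atTop (by norm_num),
    ⟨1 / 2 ^ 22, 1, by norm_num, aas (by simpa using a9.add b1)
      ((a1.eventually (eventually_ge_atTop 1)).mono fun n hn => ?_)⟩,
    fun n L _ => ?_, aas a9 ((a1.eventually (eventually_ge_atTop 1)).mono fun n hn => ?_),
    isLittleO_iff.2 fun c hc => ?_⟩
  · have c1 : (16 : ℝ) ≤ n := by exact_mod_cast (by linarith [a7 n hn] : 16 ≤ n)
    have c2 : ((n / 2 ^ 25 : ℕ) : ℝ) ≤ n / 2 ^ 25 := by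
      exact Nat.cast_div_le.trans_eq (by norm_num)
    have c3 := early (k := k n - 1) (E := univ.filter fun e : Sym2 (Fin n) => ¬ e.IsDiag)
      (M := n ^ 2 / 4) (t := n / 2 ^ 25) (by positivity) (by
        rw [← Fintype.card_subtype, Sym2.card_subtype_not_diag, Fintype.card_fin, Nat.cast_choose_two]
        nlinarith)
    rw [Nat.sub_add_cancel hn] at c3
    have c4 : (n : ℝ) ^ k n * 4 ^ k n * ((n / 2 ^ 25 : ℕ) / (n ^ 2 / 4)) ^ (k n - 1) ≤
        2 ^ 43 * (1 / 2) ^ k n := by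
      have d1 : ((n / 2 ^ 25 : ℕ) / (n ^ 2 / 4) : ℝ) ≤ 1 / (2 ^ 23 * n) := by
        rw [div_le_div_iff₀ (by positivity) (by positivity)]; nlinarith
      have d2 := b2 n
      obtain ⟨j, hj⟩ := Nat.exists_eq_add_of_le' hn
      rw [hj] at d2 ⊢
      rw [Nat.add_sub_cancel]
      refine (mul_le_mul_of_nonneg_left (pow_le_pow_left₀ (by positivity) d1 _) (by positivity)).trans ?_
      calc _ = 4 * n * (n * 4 * (1 / (2 ^ 23 * n)) : ℝ) ^ j := by simp only [mul_pow]; ring
        _ = 4 * n * (1 / 2 ^ 21) ^ j := by congr 2; field_simp; norm_num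
        _ ≤ 4 * (2 ^ 20) ^ (j + 1 + 1) * (1 / 2 ^ 21) ^ j := by gcongr
        _ = 2 ^ 42 * (2 ^ 20 * (1 / 2 ^ 21)) ^ j := by rw [mul_pow]; ring
        _ = _ := by rw [pow_succ (1 / 2 : ℝ)]; norm_num; ring
    rw [mul_add]
    refine le_trans ?_ (add_le_add (a8 n hn) (c3.trans (mul_le_mul_of_nonneg_left ?_ (by positivity))))
    · rw [← Nat.cast_add, Nat.cast_le]
      refine le_trans (card_le_card fun L hL => ?_) (card_union_le _ _)
      by_contra d0
      simp only [mem_union, mem_filter, not_or, not_and, not_not] at d0 hL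
      have d1 : n / 8 ∈ {t | fromEdgeSet {e | e ∈ L.take t} ∈ P n (k n)} :=
        P_mono (d0.1 hL.1) (fromEdgeSet_mono fun e ⟨i, e1, e2, _⟩ =>
          List.mem_of_getElem? (i := i) (by rw [List.getElem?_take_of_lt e1, e2]))
      refine hL.2 (not_lt.1 fun d2 => d0.2 hL.1 (P_mono (Nat.sInf_mem ⟨_, d1⟩)
        (fromEdgeSet_mono fun e he => List.take_subset_take_left L ?_ he)))
        (by rw [one_mul]; exact_mod_cast Nat.sInf_le d1)
      have d3 : ((n / 8 : ℕ) : ℝ) ≤ n / 8 := Nat.cast_div_le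
      rw [Nat.le_div_iff_mul_le (by norm_num), ← Nat.cast_le (α := ℝ)]
      unfold hit at d2
      push_cast
      linarith
    · simpa using c4
  · rw [bought_eq]; exact (a6 n L).2.trans (a6 n L).1.lab
  · simpa only [bought_eq] using a8 n hn
  have c1 : Tendsto (fun n => (640 : ℝ) * (1 / 128) ^ k n) atTop (𝓝 0) := by
    simpa only [mul_zero, Function.comp_def] using ((tendsto_pow_atTop_nhds_zero_of_lt_one (r := 1 / 128) (by norm_num)
      (by norm_num)).comp a1).const_mul (640 : ℝ)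
  filter_upwards [a1.eventually (eventually_ge_atTop 1), c1.eventually (ge_mem_nhds hc)] with n hn c2
  have d1 : (16 : ℝ) ≤ n := by exact_mod_cast (by linarith [a7 n hn] : 16 ≤ n)
  have d2 : (1 : ℝ) ≤ k n := by exact_mod_cast hn
  have d3 : 0 < Real.log n := Real.log_pos (by linarith)
  have d4 : Real.log n ≤ 40 * k n := by
    refine (Real.log_le_log (by linarith) (b2 n)).trans ?_
    rw [Real.log_pow, Real.log_pow]
    push_cast
    nlinarith [Real.log_two_lt_d9]
  have d5 : (2 : ℝ) ^ (10 * k n) * 2 ^ (10 * k n) ≤ 16 * (n / 8 : ℕ) := by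
    exact_mod_cast (a2 n hn).trans (by have := a7 n hn; omega)
  have d6 : (k n : ℝ) ^ 3 ≤ (1 / 128) ^ k n * 2 ^ (10 * k n) := by
    rw [pow_mul, ← mul_pow, show (1 / 128 * 2 ^ 10 : ℝ) = 2 ^ 3 by norm_num, pow_right_comm]
    gcongr
    exact_mod_cast Nat.lt_two_pow_self.le
  rw [Real.norm_of_nonneg (by positivity), Real.norm_of_nonneg (by positivity), ← mul_div_assoc,
    le_div_iff₀ d3]
  refine le_trans ?_ (mul_le_mul_of_nonneg_right c2 (by positivity))
  simp only [hm]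
  push_cast
  have d7 : (0 : ℝ) < 2 ^ (10 * k n) := by positivity
  calc _ ≤ (k n : ℝ) * (k n * 2 ^ (10 * k n)) * (40 * k n) := by gcongr
    _ = 40 * (k n ^ 3 * 2 ^ (10 * k n)) := by ring
    _ ≤ 40 * ((1 / 128) ^ k n * 2 ^ (10 * k n) * 2 ^ (10 * k n)) := by gcongr
    _ ≤ 40 * ((1 / 128) ^ k n * (16 * (n / 8 : ℕ))) := by rw [mul_assoc]; gcongr
    _ = _ := by ring

end Pool.Agent.Results.MP_8d021f_pr.Yes
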